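import Pool.Agent.Y998.LP.Defs

/-!
# Pinsker's inequality and convolution monotonicity of relative entropy (job LP-KL)
-/

set_option autoImplicit false

namespace Pool.Agent.Y768.LP

open Finset

lemma g_deriv (u : ℝ) (hu : 0 < u) :
    HasDerivAt (fun u : ℝ => Real.log u - (u - 1) * (5 * u + 1) / (2 * u * (u + 2)))
      ((u - 1) ^ 3 / (u ^ 2 * (u + 2) ^ 2)) u := by
  have h1 : HasDerivAt (fun u : ℝ => (u - 1) * (5 * u + 1)) (1 * (5 * u + 1) + (u - 1) * (5 * 1)) u :=
    ((hasDerivAt_id u).sub_const 1).mul (((hasDerivAt_id u).const_mul 5).add_const 1)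
  have h2 : HasDerivAt (fun u : ℝ => 2 * u * (u + 2)) ((2 * 1) * (u + 2) + 2 * u * 1) u :=
    ((hasDerivAt_id u).const_mul 2).mul ((hasDerivAt_id u).add_const 2)
  have hne : 2 * u * (u + 2) ≠ 0 := by positivity
  have h3 := (Real.hasDerivAt_log hu.ne').sub (h1.div h2 hne)
  have e : (u - 1) ^ 3 / (u ^ 2 * (u + 2) ^ 2) = u⁻¹ - ((1 * (5 * u + 1) + (u - 1) * (5 * 1)) *
      (2 * u * (u + 2)) - (u - 1) * (5 * u + 1) * ((2 * 1) * (u + 2) + 2 * u * 1)) /
      (2 * u * (u + 2)) ^ 2 := by
    field_simp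
    ring
  rw [e]
  exact h3

lemma scalar (u : ℝ) (hu : 0 < u) :
    3 * (u - 1) ^ 2 ≤ (2 * u + 4) * (u * Real.log u - u + 1) := by
  set g : ℝ → ℝ := fun u : ℝ => Real.log u - (u - 1) * (5 * u + 1) / (2 * u * (u + 2)) with hg
  have hg1 : g 1 = 0 := by simp [hg]
  have hge : 0 ≤ g u := by
    rcases le_total u 1 with h | h
    · have hanti : AntitoneOn g (Set.Ioc 0 1) := by
        refine antitoneOn_of_deriv_nonpos (convex_Ioc 0 1) ?_ ?_ ?_
        · intro x hx
          exact (g_deriv x hx.1).continuousAt.continuousWithinAt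
        · intro x hx
          rw [interior_Ioc] at hx
          exact (g_deriv x hx.1).differentiableAt.differentiableWithinAt
        · intro x hx
          rw [interior_Ioc] at hx
          rw [(g_deriv x hx.1).deriv]
          have hx0 := hx.1
          have hx1 := hx.2
          have : (x - 1) ^ 3 ≤ 0 := by
            have : (x - 1) ^ 3 = - ((1 - x) ^ 3) := by ring
            rw [this]
            have : 0 ≤ (1 - x) ^ 3 := pow_nonneg (by linarith) 3
            linarith
          exact div_nonpos_of_nonpos_of_nonneg this (by positivity)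
      have := hanti (a := u) (b := 1) ⟨hu, h⟩ ⟨one_pos, le_rfl⟩ h
      rw [hg1] at this
      exact this
    · have hmono : MonotoneOn g (Set.Ici 1) := by
        refine monotoneOn_of_deriv_nonneg (convex_Ici 1) ?_ ?_ ?_
        · intro x hx
          exact (g_deriv x (lt_of_lt_of_le one_pos hx)).continuousAt.continuousWithinAt
        · intro x hx
          rw [interior_Ici] at hx
          exact (g_deriv x (lt_trans one_pos hx)).differentiableAt.differentiableWithinAt
        · intro x hx
          rw [interior_Ici] at hx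
          have hx' : (1 : ℝ) < x := hx
          rw [(g_deriv x (lt_trans one_pos hx)).deriv]
          have : 0 ≤ (x - 1) ^ 3 := pow_nonneg (by linarith) 3
          positivity
      have := hmono (a := 1) (b := u) (Set.mem_Ici.2 le_rfl) (Set.mem_Ici.2 h) h
      rw [hg1] at this
      exact this
  have key : (2 * u + 4) * (u * Real.log u - u + 1) - 3 * (u - 1) ^ 2 =
      2 * u * (u + 2) * g u := by
    simp only [hg]
    field_simp
    ring
  have : 0 ≤ 2 * u * (u + 2) * g u := by positivity
  linarith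

theorem pin (ι : Type) [Fintype ι] (a b : ι → ℝ) (ha : ∀ i, 0 < a i) (hb : ∀ i, 0 < b i)
    (hsa : ∑ i, a i = 1) (hsb : ∑ i, b i = 1) :
    (∑ i, |a i - b i|) ^ 2 / 2 ≤ ∑ i, a i * Real.log (a i / b i) := by
  have hpt : ∀ i, |a i - b i| ^ 2 ≤
      ((2 * a i + 4 * b i) / 3) * (a i * Real.log (a i / b i) - a i + b i) := by
    intro i
    have hai := ha i
    have hbi := hb i
    have h := scalar (a i / b i) (div_pos hai hbi)
    have e : (2 * a i + 4 * b i) / 3 * (a i * Real.log (a i / b i) - a i + b i) =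
      b i ^ 2 / 3 * ((2 * (a i / b i) + 4) * (a i / b i * Real.log (a i / b i) - a i / b i + 1)) := by
      field_simp
    rw [e, sq_abs]
    have e2 : (a i - b i) ^ 2 = b i ^ 2 / 3 * (3 * (a i / b i - 1) ^ 2) := by
      field_simp
    rw [e2]
    exact mul_le_mul_of_nonneg_left h (by positivity)
  have hg0 : ∀ i, 0 ≤ a i * Real.log (a i / b i) - a i + b i := by
    intro i
    have hai := ha i
    have hbi := hb i
    by_contra hneg
    push Not at hneg
    have h1 := hpt i
    have h2 : ((2 * a i + 4 * b i) / 3) * (a i * Real.log (a i / b i) - a i + b i) < 0 :=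
      mul_neg_of_pos_of_neg (by positivity) hneg
    have h3 : 0 ≤ |a i - b i| ^ 2 := by positivity
    linarith
  have hcs : (∑ i, |a i - b i|) ^ 2 ≤ (∑ i, (2 * a i + 4 * b i) / 3) *
      ∑ i, (a i * Real.log (a i / b i) - a i + b i) := by
    apply Finset.sum_sq_le_sum_mul_sum_of_sq_le_mul
    · intro i _
      have hai := ha i
      have hbi := hb i
      positivity
    · intro i _; exact hg0 i
    · intro i _; exact hpt i
  have e1 : ∑ i, (2 * a i + 4 * b i) / 3 = 2 := by
    rw [← Finset.sum_div, Finset.sum_add_distrib, ← Finset.mul_sum, ← Finset.mul_sum, hsa, hsb]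
    norm_num
  have e2 : ∑ i, (a i * Real.log (a i / b i) - a i + b i) = ∑ i, a i * Real.log (a i / b i) := by
    rw [Finset.sum_add_distrib, Finset.sum_sub_distrib, hsa, hsb]
    ring
  rw [e1, e2] at hcs
  linarith

theorem dpi (G : Type) [Group G] [Fintype G] (a b r : G → ℝ) (ha : ∀ g, 0 < a g)
    (hb : ∀ g, 0 < b g) (hr : ∀ g, 0 ≤ r g) (hs : ∑ g, r g = 1) :
    ∑ g, (∑ k, a k * r (k⁻¹ * g)) *
      Real.log ((∑ k, a k * r (k⁻¹ * g)) / (∑ k, b k * r (k⁻¹ * g))) ≤
    ∑ g, a g * Real.log (a g / b g) := by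
  have step : ∀ g, (∑ k, a k * r (k⁻¹ * g)) *
      Real.log ((∑ k, a k * r (k⁻¹ * g)) / (∑ k, b k * r (k⁻¹ * g))) ≤
      ∑ k, a k * r (k⁻¹ * g) * Real.log (a k / b k) := by
    intro g
    by_cases h : ∃ k, 0 < r (k⁻¹ * g)
    · obtain ⟨k0, hk0⟩ := h
      set A := ∑ k, a k * r (k⁻¹ * g) with hA
      set B := ∑ k, b k * r (k⁻¹ * g) with hB
      have hApos : 0 < A := Finset.sum_pos' (fun k _ => mul_nonneg (ha k).le (hr _))
        ⟨k0, mem_univ _, mul_pos (ha k0) hk0⟩
      have hBpos : 0 < B := Finset.sum_pos' (fun k _ => mul_nonneg (hb k).le (hr _))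
        ⟨k0, mem_univ _, mul_pos (hb k0) hk0⟩
      have hk : ∀ k, a k * r (k⁻¹ * g) * Real.log (A / B) - a k * r (k⁻¹ * g) * Real.log (a k / b k)
          ≤ b k * r (k⁻¹ * g) * (A / B) - a k * r (k⁻¹ * g) := by
        intro k
        have hak := ha k
        have hbk := hb k
        have hx : 0 < (A / B) / (a k / b k) := by positivity
        have h1 := Real.log_le_sub_one_of_pos hx
        rw [Real.log_div (by positivity) (by positivity)] at h1
        have h2 := mul_le_mul_of_nonneg_left h1 (mul_nonneg (ha k).le (hr (k⁻¹ * g)))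
        have e : a k * r (k⁻¹ * g) * ((A / B) / (a k / b k) - 1) =
          b k * r (k⁻¹ * g) * (A / B) - a k * r (k⁻¹ * g) := by
          field_simp
        rw [e] at h2
        linarith
      have hsum := Finset.sum_le_sum (fun k (_ : k ∈ (univ : Finset G)) => hk k)
      rw [Finset.sum_sub_distrib, Finset.sum_sub_distrib, ← Finset.sum_mul, ← Finset.sum_mul, ← hA,
        ← hB] at hsum
      have e3 : B * (A / B) = A := by field_simp
      rw [e3] at hsum
      linarith
    · push Not at h
      have h0 : ∀ k, r (k⁻¹ * g) = 0 := fun k => le_antisymm (h k) (hr _)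
      simp [h0]
  calc _ ≤ ∑ g, ∑ k, a k * r (k⁻¹ * g) * Real.log (a k / b k) := Finset.sum_le_sum fun g _ => step g
    _ = ∑ k, ∑ g, a k * r (k⁻¹ * g) * Real.log (a k / b k) := Finset.sum_comm
    _ = ∑ k, a k * Real.log (a k / b k) := by
      refine Finset.sum_congr rfl fun k _ => ?_
      have e : ∑ g, r (k⁻¹ * g) = 1 := by
        rw [← hs]
        exact Fintype.sum_equiv (Equiv.mulLeft k⁻¹) _ _ (fun g => rfl)
      calc ∑ g, a k * r (k⁻¹ * g) * Real.log (a k / b k)
          = ∑ g, r (k⁻¹ * g) * (a k * Real.log (a k / b k)) := by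
            refine Finset.sum_congr rfl fun g _ => by ring
        _ = a k * Real.log (a k / b k) := by rw [← Finset.sum_mul, e, one_mul]

theorem t_PIN : Pool.Agent.Y998.LP.S_PIN := fun ι _ a b ha hb hsa hsb => pin ι a b ha hb hsa hsb

theorem t_DPI : Pool.Agent.Y998.LP.S_DPI := fun G _ _ a b r ha hb hr hs => dpi G a b r ha hb hr hs

end Pool.Agent.Y768.LP
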